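import Pool.Agent.H.MP_fc9cb6_an.E

namespace Pool.Agent.Results.MP_fc9cb6_an.Answer

open Filter Topology

variable {H : Type} [NormedAddCommGroup H] [InnerProductSpace ℂ H]
variable {X Y : Type} [NormedAddCommGroup X] [NormedSpace ℂ X] [NormedAddCommGroup Y]
  [NormedSpace ℂ Y]

def Rk (F : H →L[ℂ] H) (n : ℕ) : Prop := (F : H →ₗ[ℂ] H).rank ≤ n

/-- Singular values, as approximation numbers. -/
noncomputable def sv (T : H →L[ℂ] H) (n : ℕ) : ℝ := sInf {r | ∃ F, Rk F n ∧ r = ‖T - F‖}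

def InS (p : ℝ) (T : H →L[ℂ] H) : Prop := Summable fun n => sv T n ^ p

noncomputable def nS (p : ℝ) (T : H →L[ℂ] H) : ℝ := (∑' n, sv T n ^ p) ^ (1 / p)

def BLin (p : ℝ) (f : (H →L[ℂ] H) → Y) : Prop :=
  (∀ a b, InS p a → InS p b → ∀ c : ℂ, f (c • a + b) = c • f a + f b) ∧
    ∃ C, ∀ a, InS p a → ‖f a‖ ≤ C * nS p a

def IsBimod (p : ℝ) (l r : (H →L[ℂ] H) → X →L[ℂ] X) : Prop :=
  BLin p l ∧ BLin p r ∧ ∀ a b, InS p a → InS p b →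
    l (a.comp b) = (l a).comp (l b) ∧ r (a.comp b) = (r b).comp (r a) ∧
      (l a).comp (r b) = (r b).comp (l a)

def IsDer (p : ℝ) (l r : (H →L[ℂ] H) → X →L[ℂ] X) (D : (H →L[ℂ] H) → X →L[ℂ] ℂ) : Prop :=
  BLin p D ∧ ∀ a b, InS p a → InS p b → D (a.comp b) = (D b).comp (r a) + (D a).comp (l b)

def SemiInner (p : ℝ) (l r : (H →L[ℂ] H) → X →L[ℂ] X) (D : (H →L[ℂ] H) → X →L[ℂ] ℂ) : Prop :=
  ∃ (ι : Type) (_ : Preorder ι) (_ : IsDirected ι (· ≤ ·)) (_ : Nonempty ι)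
    (ξ η : ι → X →L[ℂ] ℂ), ∀ a, InS p a →
      Tendsto (fun i => (ξ i).comp (r a) - (η i).comp (l a)) atTop (𝓝 (D a))

def ASA (H : Type) [NormedAddCommGroup H] [InnerProductSpace ℂ H] (p : ℝ) : Prop :=
  ∀ (X : Type) [NormedAddCommGroup X] [NormedSpace ℂ X] [CompleteSpace X]
    (l r : (H →L[ℂ] H) → X →L[ℂ] X) (D : (H →L[ℂ] H) → X →L[ℂ] ℂ),
    IsBimod p l r → IsDer p l r D → SemiInner p l r D

theorem result (H : Type) [NormedAddCommGroup H] [InnerProductSpace ℂ H] [CompleteSpace H]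
    (e : HilbertBasis ℕ ℂ H) (p : ℝ) (hp : 1 ≤ p) : ASA H p ↔ p = 1 :=
  Pool.Agent.H.MP_fc9cb6_an.main e hp

end Pool.Agent.Results.MP_fc9cb6_an.Answer
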